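import Pool.Agent.H80.JD.Targets

set_option autoImplicit false

namespace Pool.Agent.H80.JD

open Finset Filter Topology

lemma sg_true : sg true = -1 := rfl
lemma sg_false : sg false = 1 := rfl
lemma sg_xor (a b : Bool) : sg (xor a b) = sg a * sg b := by cases a <;> cases b <;> rfl
lemma sg_not (a : Bool) : sg (!a) = - sg a := by cases a <;> rfl
lemma sg_sq (a : Bool) : sg a * sg a = 1 := by cases a <;> rfl
lemma sg_cases (a : Bool) : sg a = 1 ∨ sg a = -1 := by cases a <;> simp [sg]

lemma xr_apply {n : ℕ} (x y : Fin n → Bool) (i : Fin n) : xr x y i = xor (x i) (y i) := rfl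
lemma zero_apply (n : ℕ) (i : Fin n) : zero n i = false := rfl

lemma ip_xr {n : ℕ} (g x D : Fin n → Bool) : ip g (xr x D) = ip (xr g x) D := by
  unfold ip
  refine Finset.sum_congr rfl (fun i _ => ?_)
  simp only [xr_apply, sg_xor]; ring

lemma ip_zero {n : ℕ} (g : Fin n → Bool) : ip g (zero n) = ∑ i, sg (g i) := by
  unfold ip
  refine Finset.sum_congr rfl (fun i _ => ?_)
  simp [zero_apply, sg]

lemma ip_eq_ip_xr_zero {n : ℕ} (g x : Fin n → Bool) : ip g x = ip (xr g x) (zero n) := by
  rw [← ip_xr]; congr 1; funext i; simp [xr_apply, zero_apply]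

lemma xr_xr {n : ℕ} (x y : Fin n → Bool) : xr x (xr x y) = y := by
  funext i; simp only [xr_apply]; cases x i <;> cases y i <;> rfl

lemma xr_comm {n : ℕ} (x y : Fin n → Bool) : xr x y = xr y x := by
  funext i; simp only [xr_apply]; cases x i <;> cases y i <;> rfl

lemma xr_assoc {n : ℕ} (x y z : Fin n → Bool) : xr (xr x y) z = xr x (xr y z) := by
  funext i; simp only [xr_apply]; cases x i <;> cases y i <;> cases z i <;> rfl

lemma xr_zero {n : ℕ} (x : Fin n → Bool) : xr x (zero n) = x := by
  funext i; simp [xr_apply, zero_apply]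

lemma zero_xr {n : ℕ} (x : Fin n → Bool) : xr (zero n) x = x := by
  funext i; simp [xr_apply, zero_apply]

lemma xr_self {n : ℕ} (x : Fin n → Bool) : xr x x = zero n := by
  funext i; simp [xr_apply, zero_apply]

lemma xr_injective {n : ℕ} (x : Fin n → Bool) : Function.Injective (xr x) := by
  intro y z h
  rw [← xr_xr x y, h, xr_xr]

/-- translation by `x` as a permutation -/
def xrEquiv {n : ℕ} (x : Fin n → Bool) : (Fin n → Bool) ≃ (Fin n → Bool) where
  toFun := xr x
  invFun := xr x
  left_inv := xr_xr x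
  right_inv := xr_xr x

lemma hammingDist_xr {n : ℕ} (x y z : Fin n → Bool) :
    hammingDist (xr x y) (xr x z) = hammingDist y z := by
  unfold hammingDist
  congr 1
  ext i
  simp only [xr_apply, Finset.mem_filter, Finset.mem_univ, true_and, ne_eq]
  cases x i <;> cases y i <;> cases z i <;> simp

lemma hammingDist_xr_zero {n : ℕ} (x y : Fin n → Bool) :
    hammingDist (zero n) (xr x y) = hammingDist x y := by
  rw [← xr_self x, hammingDist_xr]

lemma hammingDist_zero_eq {n : ℕ} (D : Fin n → Bool) :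
    hammingDist (zero n) D = (univ.filter (fun c => D c = true)).card := by
  unfold hammingDist
  congr 1
  ext i
  simp only [zero_apply, Finset.mem_filter, Finset.mem_univ, true_and, ne_eq]
  cases D i <;> simp

lemma hammingDist_eq_card_xr {n : ℕ} (x y : Fin n → Bool) :
    hammingDist x y = (univ.filter (fun c => xr x y c = true)).card := by
  rw [← hammingDist_xr_zero, hammingDist_zero_eq]

lemma mem_E {n : ℕ} (R : ℤ → Prop) (L : List (Fin n → Bool)) (h : Fin n → Bool) :
    h ∈ E R L ↔ R (ip h (zero n)) ∧ ∀ D ∈ L, R (ip h D) := by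
  classical
  simp [E]

lemma sbp_iff {m n : ℕ} (κ : ℝ) (G : Fin m → Fin n → Bool) (x : Fin n → Bool) :
    SBP κ G x ↔ SolR (RK (κ * Real.sqrt n)) G x := Iff.rfl

lemma abp_iff {m n : ℕ} (κ : ℝ) (G : Fin m → Fin n → Bool) (x : Fin n → Bool) :
    ABP κ G x ↔ SolR (fun v => κ * Real.sqrt n ≤ (v : ℝ)) G x := Iff.rfl

/-! ### clusters -/

lemma Same.left {n : ℕ} {S : (Fin n → Bool) → Prop} {x y : Fin n → Bool} (h : Same S x y) : S x :=
  h.1

lemma Same.right {n : ℕ} {S : (Fin n → Bool) → Prop} {x y : Fin n → Bool} (h : Same S x y) :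
    S y := by
  rcases h with ⟨hx, hr⟩
  induction hr with
  | refl => exact hx
  | tail _ h2 _ => exact h2.2.1

lemma same_refl {n : ℕ} {S : (Fin n → Bool) → Prop} {x : Fin n → Bool} (h : S x) : Same S x x :=
  ⟨h, Relation.ReflTransGen.refl⟩

lemma Same.step {n : ℕ} {S : (Fin n → Bool) → Prop} {x y z : Fin n → Bool} (h : Same S x y)
    (h2 : Adj S y z) : Same S x z := ⟨h.1, h.2.tail h2⟩

/-- induction along a cluster: discrete intermediate value principle -/
lemma same_ind {n : ℕ} {S : (Fin n → Bool) → Prop} {x : Fin n → Bool} (P : (Fin n → Bool) → Prop)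
    (h0 : P x) (hs : ∀ y z, Same S x y → Adj S y z → P y → P z) {y : Fin n → Bool}
    (h : Same S x y) : P y := by
  rcases h with ⟨hx, hr⟩
  induction hr with
  | refl => exact h0
  | tail h1 h2 ih => exact hs _ _ ⟨hx, h1⟩ h2 ih

lemma hammingDist_le_n {n : ℕ} (x y : Fin n → Bool) : hammingDist x y ≤ n := by
  have := hammingDist_le_card_fintype (x := x) (y := y)
  simpa using this

lemma diamSet_bdd {n : ℕ} (S : (Fin n → Bool) → Prop) :
    BddAbove {d | ∃ x y, Same S x y ∧ hammingDist x y = d} := by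
  refine ⟨n, ?_⟩
  rintro d ⟨x, y, -, rfl⟩
  exact hammingDist_le_n x y

lemma diam_le {n : ℕ} {S : (Fin n → Bool) → Prop} {d : ℕ}
    (h : ∀ x y, Same S x y → hammingDist x y ≤ d) : diam S ≤ d := by
  unfold diam
  rcases Set.eq_empty_or_nonempty {d | ∃ x y, Same S x y ∧ hammingDist x y = d} with h0 | h0
  · rw [h0]; simp
  · refine csSup_le h0 ?_
    rintro e ⟨x, y, hxy, rfl⟩
    exact h x y hxy

lemma le_diam {n : ℕ} {S : (Fin n → Bool) → Prop} {x y : Fin n → Bool} (h : Same S x y) :
    hammingDist x y ≤ diam S :=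
  le_csSup (diamSet_bdd S) ⟨x, y, h, rfl⟩

lemma diam_le_n {n : ℕ} (S : (Fin n → Bool) → Prop) : diam S ≤ n :=
  diam_le (fun x y _ => hammingDist_le_n x y)

lemma exists_of_lt_diam {n : ℕ} {S : (Fin n → Bool) → Prop} {d : ℕ} (h : d < diam S) :
    ∃ x y, Same S x y ∧ d < hammingDist x y := by
  by_contra hc
  push Not at hc
  exact absurd (diam_le hc) (not_le.mpr h)

/-! ### probability -/

lemma prob_nonneg (m n : ℕ) (E : (Fin m → Fin n → Bool) → Prop) : 0 ≤ prob m n E := by
  unfold prob; positivity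

lemma card_rows (n : ℕ) : Nat.card (Fin n → Bool) = 2 ^ n := by simp

lemma card_mat (m n : ℕ) : Nat.card (Fin m → Fin n → Bool) = 2 ^ (m * n) := by
  simp [← pow_mul, mul_comm]

lemma prob_mono (m n : ℕ) {E F : (Fin m → Fin n → Bool) → Prop} (h : ∀ G, E G → F G) :
    prob m n E ≤ prob m n F := by
  unfold prob
  gcongr
  exact Nat.card_le_card_of_injective (fun G : {G // E G} => (⟨G.1, h _ G.2⟩ : {G // F G}))
    (fun a b hab => Subtype.ext (by simpa using congrArg Subtype.val hab))

lemma card_add_card_not {α : Type} [Finite α] (E : α → Prop) :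
    Nat.card {G // E G} + Nat.card {G // ¬ E G} = Nat.card α := by
  classical
  have := Fintype.ofFinite α
  rw [Nat.card_eq_fintype_card, Nat.card_eq_fintype_card, Nat.card_eq_fintype_card,
    Fintype.card_subtype_compl]
  have := Fintype.card_subtype_le E
  omega

lemma prob_add_not (m n : ℕ) (E : (Fin m → Fin n → Bool) → Prop) :
    prob m n E + prob m n (fun G => ¬ E G) = 1 := by
  unfold prob
  rw [← add_div, ← Nat.cast_add, card_add_card_not, card_mat]
  push_cast
  exact div_self (by positivity)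

lemma prob_le_one (m n : ℕ) (E : (Fin m → Fin n → Bool) → Prop) : prob m n E ≤ 1 := by
  have h1 := prob_add_not m n E
  have h2 := prob_nonneg m n (fun G => ¬ E G)
  linarith

/-- whp criterion: the complement is eventually contained in events with probability `→ 0` -/
lemma tendsto_prob_one {m : ℕ → ℕ} (E F : ∀ n, (Fin (m n) → Fin n → Bool) → Prop) (b : ℕ → ℝ)
    (h : ∀ᶠ n in atTop, ∀ G, ¬ E n G → F n G)
    (hb : ∀ᶠ n in atTop, prob (m n) n (F n) ≤ b n) (hb0 : Tendsto b atTop (𝓝 0)) :
    Tendsto (fun n => prob (m n) n (E n)) atTop (𝓝 1) := by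
  have h1 : Tendsto (fun n => prob (m n) n (fun G => ¬ E n G)) atTop (𝓝 0) := by
    refine tendsto_of_tendsto_of_tendsto_of_le_of_le' tendsto_const_nhds hb0
      (Eventually.of_forall (fun n => prob_nonneg _ _ _)) ?_
    filter_upwards [h, hb] with n hn hbn
    exact (prob_mono _ _ hn).trans hbn
  have h2 : (fun n => prob (m n) n (E n)) = fun n => 1 - prob (m n) n (fun G => ¬ E n G) := by
    funext n
    have := prob_add_not (m n) n (E n)
    linarith
  rw [h2]
  simpa using tendsto_const_nhds.sub h1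

end Pool.Agent.H80.JD
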