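import Pool.Agent.H80.JD.Defs

/-!
# Largest cluster diameter of binary perceptrons: statements and targets of the modules

Every other target may be used as a hypothesis.
-/

set_option autoImplicit false

namespace Pool.Agent.H80.JD

open Finset Filter Topology

/-! ## The final statements (captain) -/

/-- whp the largest cluster diameter of the SBP is at most `b n` -/
def SLe (κ α b : ℝ) : Prop :=
  Tendsto (fun n : ℕ => prob ⌊α * n⌋₊ n (fun G => (diam (SBP κ G) : ℝ) ≤ b * n)) atTop (𝓝 1)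

/-- whp the largest cluster diameter of the SBP is at least `b n` -/
def SGe (κ α b : ℝ) : Prop :=
  Tendsto (fun n : ℕ => prob ⌊α * n⌋₊ n (fun G => b * n ≤ (diam (SBP κ G) : ℝ))) atTop (𝓝 1)

/-- the largest cluster diameter of the SBP jumps at `α₀` from `≥ c + δ` to `≤ c` -/
def SJump (κ α₀ c δ : ℝ) : Prop :=
  ∃ η > 0, (∀ α, α₀ - η < α → α < α₀ → SGe κ α (c + δ)) ∧ ∀ α, α₀ < α → α < α₀ + η → SLe κ α c

def StatementA : Prop :=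
  ∃ C : ℝ, 0 < C ∧ ∀ κ : ℝ, 0 < κ → κ ≤ 1 →
    (∀ α : ℝ, C * κ ^ 2 * Real.log (Real.exp 1 / κ) ≤ α → SLe κ α (C * κ ^ 2 * (1 + 1 / α))) ∧
    ∀ α₀ c δ : ℝ, 0 ≤ c → 0 < δ → C * κ ^ 2 * Real.log (Real.exp 1 / κ) < α₀ →
      SJump κ α₀ c δ → c + δ ≤ C * κ ^ 2 * (1 + 1 / α₀)

/-- the satisfiability threshold of the SBP -/
noncomputable def αc (κ : ℝ) : ℝ := - Real.log 2 / Real.log (Φ κ)

def StatementB : Prop :=
  ∀ κ : ℝ, 0 < κ → ∃ C α₁ : ℝ, 0 < C ∧ 0 < α₁ ∧ α₁ < αc κ ∧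
    (∀ α : ℝ, α₁ ≤ α → α < αc κ → SLe κ α (C * (αc κ - α) ^ 2)) ∧
    ∀ α₀ c δ : ℝ, 0 ≤ c → 0 < δ → α₁ < α₀ → α₀ < αc κ → SJump κ α₀ c δ →
      c + δ ≤ C * (αc κ - α₀) ^ 2

/-- whp the largest cluster diameter of the ABP is at most `b n` -/
def ALe (κ α b : ℝ) : Prop :=
  Tendsto (fun n : ℕ => prob ⌊α * n⌋₊ n (fun G => (diam (ABP κ G) : ℝ) ≤ b * n)) atTop (𝓝 1)

/-- whp the largest cluster diameter of the ABP is at least `b n` -/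
def AGe (κ α b : ℝ) : Prop :=
  Tendsto (fun n : ℕ => prob ⌊α * n⌋₊ n (fun G => b * n ≤ (diam (ABP κ G) : ℝ))) atTop (𝓝 1)

/-- the largest cluster diameter of the ABP jumps at `α₀` from `≥ c + δ` to `≤ c` -/
def AJump (κ α₀ c δ : ℝ) : Prop :=
  ∃ η > 0, (∀ α, α₀ - η < α → α < α₀ → AGe κ α (c + δ)) ∧ ∀ α, α₀ < α → α < α₀ + η → ALe κ α c

def StatementC : Prop :=
  ∃ C κ₀ : ℝ, 1 < κ₀ ∧ 0 < C ∧ ∀ κ : ℝ, κ₀ ≤ κ → ∀ p : ℝ,
    (p = (ProbabilityTheory.gaussianReal 0 1).real {t : ℝ | κ < |t|} →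
      (∀ α : ℝ, 0 < α → C * (Real.log κ / κ) ^ 2 ≤ α * p →
        SLe κ α (C * (Real.log κ / κ ^ 2) * (1 + 1 / (α * p)))) ∧
      ∀ α₀ c δ : ℝ, 0 ≤ c → 0 < δ → 0 < α₀ → C * (Real.log κ / κ) ^ 2 < α₀ * p →
        SJump κ α₀ c δ → c + δ ≤ C * (Real.log κ / κ ^ 2) * (1 + 1 / (α₀ * p))) ∧
    (p = (ProbabilityTheory.gaussianReal 0 1).real (Set.Iio (-κ)) →
      (∀ α : ℝ, 0 < α → C * (Real.log κ / κ) ^ 2 ≤ α * p →
        ALe (-κ) α (C * (Real.log κ / κ ^ 2) * (1 + 1 / (α * p)))) ∧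
      ∀ α₀ c δ : ℝ, 0 ≤ c → 0 < δ → 0 < α₀ → C * (Real.log κ / κ) ^ 2 < α₀ * p →
        AJump (-κ) α₀ c δ → c + δ ≤ C * (Real.log κ / κ ^ 2) * (1 + 1 / (α₀ * p)))

/-! ## Common -/

/-- UB: union bound over a point and a list of translations -/
def T_UB : Prop :=
  ∀ (m n : ℕ) (R : ℤ → Prop) (𝓛 : Finset (List (Fin n → Bool))),
    prob m n (fun G => ∃ x, ∃ L ∈ 𝓛, SolR R G x ∧ ∀ D ∈ L, SolR R G (xr x D)) ≤
      2 ^ n * ∑ L ∈ 𝓛, (((E R L).card : ℝ) / 2 ^ n) ^ m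

/-- LIM: the first moment tends to zero if its exponent is negative -/
def T_LIM : Prop :=
  ∀ (x α q c₀ : ℝ) (J : ℕ) (row : ℕ → ℝ), 0 < x → x < 1 → 0 < α → 0 < q → 0 ≤ c₀ →
    (∀ n, 0 ≤ row n) → (∀ᶠ n in atTop, row n ≤ q) →
    Real.log 2 + J * (x * Real.log (Real.exp 1 / x)) + α * Real.log q < 0 →
    Tendsto (fun n : ℕ => 2 ^ n * (c₀ * (n.choose ⌈x * n⌉₊ : ℝ)) ^ J * (row n) ^ ⌊α * n⌋₊)
      atTop (𝓝 0)

/-- CB: binomial coefficients are at most `2^N / √N` -/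
def T_CB : Prop := ∀ N t : ℕ, (N.choose t : ℝ) * Real.sqrt N ≤ 2 ^ N

/-! ## Theorem A -/

/-- WL: the weight is Lipschitz -/
def T_WL : Prop :=
  ∀ (n : ℕ) (T : Type) [Fintype T] [DecidableEq T] (f : Fin n → T) (D D' : Fin n → Bool),
    hammingDist D D' ≤ 1 → wt f D' ≤ wt f D + 1

/-- EX: one step of the chain -/
def T_EX : Prop :=
  ∀ (n : ℕ) (S : (Fin n → Bool) → Prop) (x y : Fin n → Bool) (M J : ℕ)
    (L : List (Fin n → Bool)),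
    Same S x y → J * M < hammingDist x y → L.length < J → (J + 1) * M ≤ n → 1 ≤ M →
    n ≤ (A0 L).card + L.length * M →
    ∃ z, Same S x z ∧ wt (lab L) (xr x z) = M ∧
      ((A0 L).filter (fun c => xr x z c = true)).card ≤ M

/-- CHA: long clusters contain chains of type A -/
def T_CHA : Prop :=
  ∀ (n : ℕ) (S : (Fin n → Bool) → Prop) (x y : Fin n → Bool) (M J : ℕ),
    Same S x y → J * M < hammingDist x y → (J + 1) * M ≤ n → 1 ≤ M →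
    ∃ L ∈ chainsA n M J, ∀ D ∈ L, S (xr x D)

/-- WC: number of vectors of weight `M` -/
def T_WC : Prop :=
  ∀ (n : ℕ) (T : Type) [Fintype T] [DecidableEq T] (f : Fin n → T) (M : ℕ),
    (univ.filter (fun D : Fin n → Bool => wt f D = M)).card ≤ 2 ^ Fintype.card T * n.choose M

/-- NCA: number of chains of type A -/
def T_NCA : Prop :=
  ∀ n M J : ℕ, (chainsA n M J).card ≤ 2 ^ (2 ^ J) * (n.choose M) ^ J ∧
    ∀ L ∈ chainsA n M J, L.length = J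

/-- PA: a vector of weight `M` gives `M` disjoint pairs -/
def T_PA : Prop :=
  ∀ (n : ℕ) (T : Type) [Fintype T] [DecidableEq T] (f : Fin n → T) (D : Fin n → Bool) (M : ℕ),
    wt f D = M →
    ∃ a b : Fin M → Fin n, Function.Injective a ∧ Function.Injective b ∧
      ∀ k, f (a k) = f (b k) ∧ D (a k) = true ∧ D (b k) = false

/-- XU: few rows have few discordant pairs -/
def T_XU : Prop :=
  ∀ (n M : ℕ) (a b : Fin M → Fin n), Function.Injective a → Function.Injective b →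
    (∀ k l, a k ≠ b l) →
    ((univ.filter (fun h : Fin n → Bool =>
      4 * (univ.filter (fun k => h (a k) ≠ h (b k))).card < M)).card : ℝ) ≤ 2 ^ n * (9 / 10) ^ M

/-- SW: swapping discordant pairs -/
def T_SW : Prop :=
  ∀ (n M : ℕ) (a b : Fin M → Fin n) (D h : Fin n → Bool) (U : Finset (Fin M)) (K : ℝ),
    Function.Injective a → Function.Injective b → (∀ k, D (a k) = true ∧ D (b k) = false) →
    (∀ k ∈ U, h (a k) ≠ h (b k)) → 0 ≤ K → 1 ≤ U.card →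
    (Nat.card {A : Finset (Fin M) // A ⊆ U ∧ |((ip (swp a b A h) D : ℤ) : ℝ)| ≤ K} : ℝ) ≤
      (K / 2 + 1) * (2 ^ U.card / Real.sqrt U.card)

/-- RR: one more vector of weight `M` reduces the number of accepting rows -/
def T_RR : Prop :=
  ∀ (n M : ℕ) (L : List (Fin n → Bool)) (D : Fin n → Bool) (K : ℝ),
    wt (lab L) D = M → 1 ≤ M → 0 ≤ K →
    ((E (RK K) (D :: L)).card : ℝ) ≤
      (K / 2 + 1) * (2 / Real.sqrt M) * (E (RK K) L).card + 2 ^ n * (9 / 10) ^ M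

/-- RA: rows accepting a chain of type A -/
def T_RA : Prop :=
  ∀ (n M J : ℕ) (K : ℝ), 1 ≤ M → 0 ≤ K → (K / 2 + 1) * (2 / Real.sqrt M) ≤ 1 / 2 →
    ∀ L ∈ chainsA n M J, ((E (RK K) L).card : ℝ) / 2 ^ n ≤
      ((K / 2 + 1) * (2 / Real.sqrt M)) ^ J + 2 * (9 / 10) ^ M

/-- RHO: the row bound of theorem A -/
def T_RHO : Prop :=
  ∀ (κ : ℝ) (J : ℕ), 0 < κ → 1 ≤ J → ∀ᶠ n : ℕ in atTop,
    (κ * Real.sqrt n / 2 + 1) * (2 / Real.sqrt (⌈1024 * κ ^ 2 * n⌉₊ : ℕ)) ≤ 1 / 2 ∧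
    ((κ * Real.sqrt n / 2 + 1) * (2 / Real.sqrt (⌈1024 * κ ^ 2 * n⌉₊ : ℕ))) ^ J +
      2 * (9 / 10) ^ ⌈1024 * κ ^ 2 * n⌉₊ ≤ (1 / 8 : ℝ) ^ J

/-- ENA: the exponent of theorem A is negative -/
def T_ENA : Prop :=
  ∀ κ α : ℝ, 0 < κ → κ ≤ 1 → 0 < α → 4096 * κ ^ 2 * Real.log (Real.exp 1 / κ) ≤ α →
    4096 * κ ^ 2 * (1 + 1 / α) < 1 →
    Real.log 2 + (⌈1 / α⌉₊ : ℕ) * (1024 * κ ^ 2 * Real.log (Real.exp 1 / (1024 * κ ^ 2))) +
      α * Real.log ((1 / 8 : ℝ) ^ ⌈1 / α⌉₊) < 0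

/-- FA: theorem A -/
def T_FA : Prop := StatementA

/-! ## Gaussian facts -/

/-- CLT: the central limit theorem for sums of signs -/
def T_CLT : Prop :=
  ∀ (k : ℕ → ℕ) (r x : ℝ), 0 < r → 0 < x →
    Tendsto (fun n : ℕ => (k n : ℝ) / n) atTop (𝓝 r) →
    Tendsto (fun n : ℕ => pr (k n) (x * Real.sqrt n)) atTop (𝓝 (Φ (x / Real.sqrt r)))

/-- GL: Lipschitz bounds for `Φ` -/
def T_GL : Prop :=
  (∀ a b : ℝ, 0 ≤ a → a ≤ b → Φ b - Φ a ≤ b - a) ∧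
  ∀ κ : ℝ, 0 < κ → ∃ c : ℝ, 0 < c ∧ ∀ a b : ℝ, 0 ≤ a → a ≤ b → b ≤ κ → c * (b - a) ≤ Φ b - Φ a

/-- GT: tail of `Φ` -/
def T_GT : Prop :=
  (∀ t δ : ℝ, 0 ≤ t → 0 ≤ δ → 1 - Φ (t + δ) ≤ Real.exp (-(t * δ)) * (1 - Φ t)) ∧
  (∀ t : ℝ, 0 < t → 0 < Φ t ∧ Φ t < 1) ∧
  (∀ t : ℝ, 0 ≤ t → (ProbabilityTheory.gaussianReal 0 1).real (Set.Iio (-t)) = (1 - Φ t) / 2) ∧
  ∀ t : ℝ, 0 ≤ t → (ProbabilityTheory.gaussianReal 0 1).real {u : ℝ | t < |u|} = 1 - Φ t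

/-! ## Rows and two points -/

/-- SP: splitting a row into the coordinates where `D` is false and those where it is true -/
def T_SP : Prop :=
  ∀ (n M : ℕ) (D : Fin n → Bool), hammingDist (zero n) D = M →
    ∃ A B : (Fin n → Bool) → ℤ, (∀ h, ip h (zero n) = A h + B h ∧ ip h D = A h - B h) ∧
      ∀ P Q : ℤ → Prop, Nat.card {h : Fin n → Bool // P (A h) ∧ Q (B h)} =
        Nat.card {g : Fin (n - M) → Bool // P (ip g (zero (n - M)))} *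
          Nat.card {g : Fin M → Bool // Q (ip g (zero M))}

/-- PR2: rows accepting two points at distance `M` -/
def T_PR2 : Prop :=
  ∀ (n M : ℕ) (D : Fin n → Bool) (K s : ℝ), hammingDist (zero n) D = M → 0 ≤ s →
    ((E (RK K) [D]).card : ℝ) / 2 ^ n ≤
      pr M s * pr (n - M) K + (1 - pr M s) * pr (n - M) (K - s)

/-- LV: Levy doubling -/
def T_LV : Prop := ∀ (k l : ℕ) (K : ℝ), 1 - pr k K ≤ 2 * (1 - pr (k + l) K)

/-- VV: rows violated by two points -/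
def T_VV : Prop :=
  ∀ (n M : ℕ) (D D' : Fin n → Bool) (K : ℝ), M ≤ hammingDist D D' → hammingDist D D' + M ≤ n →
    0 ≤ K →
    (Nat.card {h : Fin n → Bool // K < |((ip h D : ℤ) : ℝ)| ∧ K < |((ip h D' : ℤ) : ℝ)|} : ℝ) ≤
      4 * (1 - pr (n - M) K) * 2 ^ n

/-- V1: rows violated by one point -/
def T_V1 : Prop :=
  ∀ (n : ℕ) (D : Fin n → Bool) (K : ℝ), 0 ≤ K →
    (Nat.card {h : Fin n → Bool // K < |((ip h D : ℤ) : ℝ)|} : ℝ) = (1 - pr n K) * 2 ^ n ∧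
    (Nat.card {h : Fin n → Bool // ((ip h D : ℤ) : ℝ) < -K} : ℝ) = (1 - pr n K) / 2 * 2 ^ n

/-! ## Theorem B -/

/-- MID: points at every intermediate distance -/
def T_MID : Prop :=
  ∀ (n : ℕ) (S : (Fin n → Bool) → Prop) (x y : Fin n → Bool) (M : ℕ),
    Same S x y → M ≤ hammingDist x y → ∃ z, Same S x z ∧ hammingDist x z = M

/-- the limit of the row bound of theorem B -/
noncomputable def qB (κ x : ℝ) : ℝ :=
  Φ 1 * Φ (κ / Real.sqrt (1 - x)) + (1 - Φ 1) * Φ ((κ - Real.sqrt x) / Real.sqrt (1 - x))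

/-- LB1: limit of the row bound -/
def T_LB1 : Prop :=
  ∀ κ x : ℝ, 0 < x → x < 1 → Real.sqrt x < κ →
    Tendsto (fun n : ℕ =>
      pr ⌈x * n⌉₊ (Real.sqrt x * Real.sqrt n) * pr (n - ⌈x * n⌉₊) (κ * Real.sqrt n) +
      (1 - pr ⌈x * n⌉₊ (Real.sqrt x * Real.sqrt n)) *
        pr (n - ⌈x * n⌉₊) (κ * Real.sqrt n - Real.sqrt x * Real.sqrt n))
      atTop (𝓝 (qB κ x))

/-- LB2: the row bound is smaller than `Φ κ` by `c √x` -/
def T_LB2 : Prop :=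
  ∀ κ : ℝ, 0 < κ → ∃ c x₀ : ℝ, 0 < c ∧ 0 < x₀ ∧ x₀ < 1 ∧ Real.sqrt x₀ < κ ∧
    ∀ x : ℝ, 0 < x → x ≤ x₀ → 0 < Φ κ - c * Real.sqrt x ∧ qB κ x < Φ κ - c * Real.sqrt x

/-- LB3: the exponent of theorem B is negative -/
def T_LB3 : Prop :=
  ∀ P c x₀ : ℝ, 0 < P → P < 1 → 0 < c → 0 < x₀ → x₀ < 1 →
    ∃ C α₁ : ℝ, 0 < C ∧ 0 < α₁ ∧ α₁ < - Real.log 2 / Real.log P ∧
      ∀ α : ℝ, α₁ ≤ α → α < - Real.log 2 / Real.log P →
        C * (- Real.log 2 / Real.log P - α) ^ 2 ≤ x₀ ∧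
        0 < P - c * Real.sqrt (C * (- Real.log 2 / Real.log P - α) ^ 2) ∧
        Real.log 2 + C * (- Real.log 2 / Real.log P - α) ^ 2 *
            Real.log (Real.exp 1 / (C * (- Real.log 2 / Real.log P - α) ^ 2)) +
          α * Real.log (P - c * Real.sqrt (C * (- Real.log 2 / Real.log P - α) ^ 2)) < 0

/-! ## Theorem C -/

/-- BF: Bonferroni -/
def T_BF : Prop :=
  ∀ (n : ℕ) (R : ℤ → Prop) (Z : List (Fin n → Bool)) (v r : ℝ),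
    (∀ D ∈ Z, v * 2 ^ n ≤ (Nat.card {h : Fin n → Bool // ¬ R (ip h D)} : ℝ)) →
    Z.Pairwise (fun D D' =>
      (Nat.card {h : Fin n → Bool // ¬ R (ip h D) ∧ ¬ R (ip h D')} : ℝ) ≤ r * 2 ^ n) →
    (Nat.card {h : Fin n → Bool // ∀ D ∈ Z, R (ip h D)} : ℝ) ≤
      (1 - Z.length * v + Z.length * (Z.length - 1) / 2 * r) * 2 ^ n

/-- CHC: long clusters contain chains of type C -/
def T_CHC : Prop :=
  ∀ (n : ℕ) (S : (Fin n → Bool) → Prop) (x y : Fin n → Bool) (M J : ℕ),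
    Same S x y → J * M < hammingDist x y → 2 * J * M ≤ n → 1 ≤ M →
    ∃ L ∈ chainsC n M J, ∀ D ∈ L, S (xr x D)

/-- NCC: number of chains of type C -/
def T_NCC : Prop :=
  ∀ n M J : ℕ, (chainsC n M J).card ≤ (J * n.choose M) ^ J ∧
    ∀ L ∈ chainsC n M J, L.length = J ∧
      (L ++ [zero n]).Pairwise (fun D D' => M ≤ hammingDist D D' ∧ hammingDist D D' + M ≤ n)

/-- RC: rows accepting a chain of type C -/
def T_RC : Prop :=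
  ∀ (n M J : ℕ) (K : ℝ), 0 ≤ K → ∀ L ∈ chainsC n M J,
    ((E (RK K) L).card : ℝ) / 2 ^ n ≤
      1 - (J + 1) * (1 - pr n K) + (J + 1) * J / 2 * (4 * (1 - pr (n - M) K)) ∧
    ((E (fun v => -K ≤ (v : ℝ)) L).card : ℝ) / 2 ^ n ≤
      1 - (J + 1) * ((1 - pr n K) / 2) + (J + 1) * J / 2 * (4 * (1 - pr (n - M) K))

/-- LC1: limit of the second term of the row bound -/
def T_LC1 : Prop :=
  ∀ κ : ℝ, 16 ≤ κ → 0 < 6 * Real.log κ / κ ^ 2 ∧ 6 * Real.log κ / κ ^ 2 < 1 ∧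
    ∃ r₀ : ℝ, r₀ ≤ (1 - Φ κ) / κ ^ 3 ∧
      Tendsto (fun n : ℕ => 1 - pr (n - ⌈6 * Real.log κ / κ ^ 2 * n⌉₊) (κ * Real.sqrt n))
        atTop (𝓝 r₀)

/-- LC2: the exponent of theorem C is negative; `J = ⌈6 / (α p)⌉` -/
def T_LC2 : Prop :=
  ∀ κ α p r₀ : ℝ, 16 ≤ κ → 0 < α → 0 < p → p < 1 → 144 * (Real.log κ / κ) ^ 2 ≤ α * p →
    r₀ ≤ 2 * p / κ ^ 3 →
    Real.log 2 + (⌈6 / (α * p)⌉₊ : ℕ) * (6 * Real.log κ / κ ^ 2 *
        Real.log (Real.exp 1 / (6 * Real.log κ / κ ^ 2))) +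
      α * Real.log (Real.exp (-((⌈6 / (α * p)⌉₊ : ℕ) + 1) * p / 2)) < 0 ∧
    1 - ((⌈6 / (α * p)⌉₊ : ℕ) + 1) * p +
      ((⌈6 / (α * p)⌉₊ : ℕ) + 1) * (⌈6 / (α * p)⌉₊ : ℕ) / 2 * (4 * r₀) <
      Real.exp (-((⌈6 / (α * p)⌉₊ : ℕ) + 1) * p / 2)

end Pool.Agent.H80.JD
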