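import Mathlib

/-!
# Largest cluster diameter of binary perceptrons: definitions

Sign vectors are coded by bit vectors: `false` is the sign `1`, `true` is the sign `-1`.
-/

set_option autoImplicit false

namespace Pool.Agent.H80.JD

open Finset

/-! ## The model -/

/-- the sign of a bit -/
def sg (b : Bool) : ℤ := if b then -1 else 1

/-- inner product of two sign vectors -/
def ip {n : ℕ} (g x : Fin n → Bool) : ℤ := ∑ i, sg (g i) * sg (x i)

/-- the point `x` satisfies all rows of `G`, where `R` is the set of allowed inner products -/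
def SolR (R : ℤ → Prop) {m n : ℕ} (G : Fin m → Fin n → Bool) (x : Fin n → Bool) : Prop :=
  ∀ j, R (ip (G j) x)

/-- solutions of the symmetric binary perceptron -/
def SBP (κ : ℝ) {m n : ℕ} (G : Fin m → Fin n → Bool) (x : Fin n → Bool) : Prop :=
  ∀ j, |((ip (G j) x : ℤ) : ℝ)| ≤ κ * Real.sqrt n

/-- solutions of the asymmetric binary perceptron -/
def ABP (κ : ℝ) {m n : ℕ} (G : Fin m → Fin n → Bool) (x : Fin n → Bool) : Prop :=
  ∀ j, κ * Real.sqrt n ≤ ((ip (G j) x : ℤ) : ℝ)

/-- adjacent members of the set `S` -/
def Adj {n : ℕ} (S : (Fin n → Bool) → Prop) (x y : Fin n → Bool) : Prop :=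
  S x ∧ S y ∧ hammingDist x y = 1

/-- `x` and `y` lie in the same cluster of `S` -/
def Same {n : ℕ} (S : (Fin n → Bool) → Prop) (x y : Fin n → Bool) : Prop :=
  S x ∧ Relation.ReflTransGen (Adj S) x y

/-- the largest diameter of a cluster of `S` (`0` if `S` is empty) -/
noncomputable def diam {n : ℕ} (S : (Fin n → Bool) → Prop) : ℕ :=
  sSup {d | ∃ x y, Same S x y ∧ hammingDist x y = d}

/-- probability of an event for a uniformly random `m × n` sign matrix -/
noncomputable def prob (m n : ℕ) (E : (Fin m → Fin n → Bool) → Prop) : ℝ :=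
  (Nat.card {G : Fin m → Fin n → Bool // E G} : ℝ) / 2 ^ (m * n)

/-- `P(|N| ≤ t)`, `N` standard normal -/
noncomputable def Φ (t : ℝ) : ℝ := (ProbabilityTheory.gaussianReal 0 1).real (Set.Icc (-t) t)

/-! ## Auxiliary definitions -/

/-- coordinatewise exclusive or -/
def xr {n : ℕ} (x y : Fin n → Bool) : Fin n → Bool := fun i => xor (x i) (y i)

/-- the zero bit vector -/
def zero (n : ℕ) : Fin n → Bool := fun _ => false

open Classical in
/-- the rows which accept the zero vector and all members of `L` -/
noncomputable def E {n : ℕ} (R : ℤ → Prop) (L : List (Fin n → Bool)) : Finset (Fin n → Bool) :=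
  univ.filter (fun h => R (ip h (zero n)) ∧ ∀ D ∈ L, R (ip h D))

/-- allowed inner products `|v| ≤ K` -/
def RK (K : ℝ) (v : ℤ) : Prop := |(v : ℝ)| ≤ K

/-- `P(|S_k| ≤ t)`, `S_k` a sum of `k` independent signs -/
noncomputable def pr (k : ℕ) (t : ℝ) : ℝ :=
  (Nat.card {h : Fin k → Bool // |((ip h (zero k) : ℤ) : ℝ)| ≤ t} : ℝ) / 2 ^ k

/-- number of coordinates with label `t` where `D` is `b` -/
def cls {n : ℕ} {T : Type} [DecidableEq T] (f : Fin n → T) (D : Fin n → Bool) (t : T) (b : Bool) :
    ℕ := (univ.filter (fun c => f c = t ∧ D c = b)).card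

/-- distance of `D` from the vectors which are constant on the classes of `f` -/
def wt {n : ℕ} {T : Type} [Fintype T] [DecidableEq T] (f : Fin n → T) (D : Fin n → Bool) : ℕ :=
  ∑ t, min (cls f D t true) (cls f D t false)

/-- the label of the coordinate `c`: its values under the members of `L` -/
def lab {n : ℕ} (L : List (Fin n → Bool)) (c : Fin n) : Fin L.length → Bool := fun i => L.get i c

/-- the coordinates where all members of `L` are `false` -/
def A0 {n : ℕ} (L : List (Fin n → Bool)) : Finset (Fin n) := univ.filter (fun c => ∀ D ∈ L, D c = false)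

/-- chains of type A of length `j` (newest member first): every member has distance exactly `M`
from the vectors which are constant on the classes given by the previous ones -/
def chainsA (n M : ℕ) : ℕ → Finset (List (Fin n → Bool))
  | 0 => {[]}
  | j + 1 => (chainsA n M j).biUnion
      (fun L => (univ.filter (fun D => wt (lab L) D = M)).image (fun D => D :: L))

/-- chains of type C of length `j` (newest member first): every member has distance `≥ M` and
`≤ n - M` from all the previous ones and from zero, and distance exactly `M` from one of them -/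
def chainsC (n M : ℕ) : ℕ → Finset (List (Fin n → Bool))
  | 0 => {[]}
  | j + 1 => (chainsC n M j).biUnion
      (fun L => (univ.filter (fun D => (∀ D' ∈ zero n :: L, M ≤ hammingDist D D' ∧
        hammingDist D D' + M ≤ n) ∧ ∃ D' ∈ zero n :: L, hammingDist D D' = M)).image
          (fun D => D :: L))

/-- the row `h` with the coordinates `a k`, `b k`, `k ∈ A`, flipped -/
def swp {n M : ℕ} (a b : Fin M → Fin n) (A : Finset (Fin M)) (h : Fin n → Bool) : Fin n → Bool :=
  fun c => if (∃ k ∈ A, c = a k ∨ c = b k) then !(h c) else h c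

end Pool.Agent.H80.JD
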