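import Pool.Agent.H80.JD.Basic

set_option autoImplicit false

namespace Pool.Agent.H80.JD

open Finset Filter Topology

lemma prob_true (m n : ℕ) (E : (Fin m → Fin n → Bool) → Prop) (h : ∀ G, E G) : prob m n E = 1 := by
  have h1 := prob_add_not m n E
  have h2 : prob m n (fun G => ¬ E G) = 0 := by
    unfold prob
    have : IsEmpty {G : Fin m → Fin n → Bool // ¬ E G} := ⟨fun G => G.2 (h G.1)⟩
    rw [Nat.card_of_isEmpty]; simp
  linarith

lemma tendsto_prob_one_of_true {m : ℕ → ℕ} (E : ∀ n, (Fin (m n) → Fin n → Bool) → Prop)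
    (h : ∀ n G, E n G) : Tendsto (fun n => prob (m n) n (E n)) atTop (𝓝 1) := by
  have : (fun n => prob (m n) n (E n)) = fun _ => 1 := by
    funext n; exact prob_true _ _ _ (h n)
  rw [this]; exact tendsto_const_nhds

lemma diam_le_of_one_le {n : ℕ} (S : (Fin n → Bool) → Prop) (b : ℝ) (hb : 1 ≤ b) :
    (diam S : ℝ) ≤ b * n := by
  have h1 : (diam S : ℝ) ≤ n := by exact_mod_cast diam_le_n S
  have h2 : (n : ℝ) ≤ b * n := by nlinarith [Nat.cast_nonneg (α := ℝ) n]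
  exact h1.trans h2

/-- two events of probability `→ 1` -/
lemma le_of_whp {m : ℕ → ℕ} (X : ∀ n, (Fin (m n) → Fin n → Bool) → ℝ) (a b : ℝ)
    (h1 : Tendsto (fun n => prob (m n) n (fun G => a * n ≤ X n G)) atTop (𝓝 1))
    (h2 : Tendsto (fun n => prob (m n) n (fun G => X n G ≤ b * n)) atTop (𝓝 1)) : a ≤ b := by
  have e1 : ∀ᶠ n in atTop, 1 / 2 < prob (m n) n (fun G => a * n ≤ X n G) :=
    h1.eventually (lt_mem_nhds (by norm_num))
  have e2 : ∀ᶠ n in atTop, 1 / 2 < prob (m n) n (fun G => X n G ≤ b * n) :=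
    h2.eventually (lt_mem_nhds (by norm_num))
  obtain ⟨n, hn1, hn2, hn3⟩ := (e1.and (e2.and (eventually_gt_atTop 0))).exists
  have hnot : ¬ ∀ G, a * n ≤ X n G → ¬ X n G ≤ b * n := by
    intro hc
    have h3 := prob_mono (m n) n hc
    have h4 := prob_add_not (m n) n (fun G => X n G ≤ b * n)
    linarith
  push Not at hnot
  obtain ⟨G, hG1, hG2⟩ := hnot
  have hnpos : (0 : ℝ) < n := by exact_mod_cast hn3
  exact le_of_mul_le_mul_right (hG1.trans hG2) hnpos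

/-- a jump at `α₀` is bounded by a continuous upper bound -/
lemma jump_le (α₀ c' a₁ : ℝ) (b : ℝ → ℝ) (η : ℝ) (hη : 0 < η) (ha : a₁ < α₀)
    (hb : ContinuousAt b α₀)
    (h : ∀ α, α₀ - η < α → α < α₀ → a₁ ≤ α → c' ≤ b α) : c' ≤ b α₀ := by
  have h1 : Tendsto b (𝓝[<] α₀) (𝓝 (b α₀)) := hb.tendsto.mono_left nhdsWithin_le_nhds
  refine ge_of_tendsto h1 ?_
  have e1 : ∀ᶠ α in 𝓝[<] α₀, α < α₀ := self_mem_nhdsWithin
  have e2 : ∀ᶠ α in 𝓝[<] α₀, α₀ - η < α :=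
    nhdsWithin_le_nhds (lt_mem_nhds (by linarith))
  have e3 : ∀ᶠ α in 𝓝[<] α₀, a₁ < α := nhdsWithin_le_nhds (lt_mem_nhds ha)
  filter_upwards [e1, e2, e3] with α h1 h2 h3
  exact h α h2 h1 h3.le

theorem finA (hUB : T_UB) (hLIM : T_LIM) (hCHA : T_CHA) (hNCA : T_NCA) (hRA : T_RA)
    (hRHO : T_RHO) (hENA : T_ENA) : StatementA := by
  refine ⟨4096, by norm_num, fun κ hκ hκ1 => ?_⟩
  have hlog : 1 ≤ Real.log (Real.exp 1 / κ) := by
    rw [Real.log_div (Real.exp_pos 1).ne' hκ.ne', Real.log_exp]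
    have := Real.log_nonpos hκ.le hκ1
    linarith
  have hκ2 : 0 < κ ^ 2 := by positivity
  have main : ∀ α : ℝ, 4096 * κ ^ 2 * Real.log (Real.exp 1 / κ) ≤ α →
      SLe κ α (4096 * κ ^ 2 * (1 + 1 / α)) := by
    intro α hα
    have hα0 : 0 < α := by
      refine lt_of_lt_of_le ?_ hα
      positivity
    by_cases hbig : 1 ≤ 4096 * κ ^ 2 * (1 + 1 / α)
    · exact tendsto_prob_one_of_true _ (fun n G => diam_le_of_one_le _ _ hbig)
    push Not at hbig
    set J : ℕ := ⌈1 / α⌉₊ with hJ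
    have hJ1 : 1 ≤ J := Nat.one_le_ceil_iff.mpr (by positivity)
    have hJle : (J : ℝ) ≤ 1 / α + 1 := (Nat.ceil_lt_add_one (by positivity)).le
    have hx0 : 0 < 1024 * κ ^ 2 := by positivity
    have hx1 : 1024 * κ ^ 2 < 1 := by
      have : 0 < 1 / α := by positivity
      nlinarith
    have hlim := hLIM (1024 * κ ^ 2) α ((1 / 8 : ℝ) ^ J) (2 ^ (2 ^ J)) J
      (fun n => ((κ * Real.sqrt n / 2 + 1) * (2 / Real.sqrt (⌈1024 * κ ^ 2 * n⌉₊ : ℕ))) ^ J +
        2 * (9 / 10) ^ ⌈1024 * κ ^ 2 * n⌉₊) hx0 hx1 hα0 (by positivity) (by positivity)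
      (fun n => by positivity) ((hRHO κ J hκ hJ1).mono (fun n hn => hn.2))
      (hENA κ α hκ hκ1 hα0 hα hbig)
    refine tendsto_prob_one (m := fun n => ⌊α * n⌋₊)
      (fun n G => (diam (SBP κ G) : ℝ) ≤ 4096 * κ ^ 2 * (1 + 1 / α) * n)
      (fun n G => ∃ x, ∃ L ∈ chainsA n ⌈1024 * κ ^ 2 * n⌉₊ J,
        SolR (RK (κ * Real.sqrt n)) G x ∧ ∀ D ∈ L, SolR (RK (κ * Real.sqrt n)) G (xr x D)) _
      ?_ ?_ hlim
    · -- long clusters contain chains
      filter_upwards [eventually_ge_atTop 1,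
        (tendsto_natCast_atTop_atTop (R := ℝ)).eventually_ge_atTop (1 / (1024 * κ ^ 2))]
        with n hn1 hn2 G hG
      push Not at hG
      have hnpos : (0 : ℝ) < n := by exact_mod_cast hn1
      have hn3 : 1 ≤ 1024 * κ ^ 2 * n := by
        rw [div_le_iff₀ hx0] at hn2; linarith
      set M : ℕ := ⌈1024 * κ ^ 2 * n⌉₊ with hM
      have hM1 : 1 ≤ M := Nat.one_le_ceil_iff.mpr (by positivity)
      have hMle : (M : ℝ) ≤ 2048 * κ ^ 2 * n := by
        have := (Nat.ceil_lt_add_one (a := 1024 * κ ^ 2 * (n : ℝ)) (by positivity)).le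
        linarith
      have hα1 : 0 < 1 / α := by positivity
      have hMM : (0 : ℝ) ≤ M := Nat.cast_nonneg M
      have hJM : (J : ℝ) * M ≤ 4096 * κ ^ 2 * (1 + 1 / α) * n := by
        have h1 : (J : ℝ) * M ≤ (1 / α + 1) * (2048 * κ ^ 2 * n) :=
          mul_le_mul hJle hMle hMM (by positivity)
        nlinarith [mul_pos (mul_pos hκ2 hnpos) hα1, mul_pos hκ2 hnpos]
      have hJM2 : ((J : ℝ) + 1) * M ≤ n := by
        have h1 : ((J : ℝ) + 1) * M ≤ (1 / α + 1 + 1) * (2048 * κ ^ 2 * n) :=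
          mul_le_mul (by linarith) hMle hMM (by positivity)
        have h2 : (1 / α + 1 + 1) * (2048 * κ ^ 2 * n) ≤ 4096 * κ ^ 2 * (1 + 1 / α) * n := by
          nlinarith [mul_pos (mul_pos hκ2 hnpos) hα1, mul_pos hκ2 hnpos]
        have h3 : 4096 * κ ^ 2 * (1 + 1 / α) * n ≤ 1 * n := by gcongr
        linarith
      have hlt : J * M < diam (SBP κ G) := by
        have : ((J * M : ℕ) : ℝ) < (diam (SBP κ G) : ℝ) := by
          push_cast
          exact lt_of_le_of_lt hJM hG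
        exact_mod_cast this
      obtain ⟨x, y, hxy, hd⟩ := exists_of_lt_diam hlt
      obtain ⟨L, hL, hL2⟩ := hCHA n (SBP κ G) x y M J hxy hd (by exact_mod_cast hJM2) hM1
      exact ⟨x, L, hL, hxy.1, hL2⟩
    · -- union bound
      filter_upwards [eventually_ge_atTop 1, hRHO κ J hκ hJ1] with n hn1 hn2
      have hnpos : (0 : ℝ) < n := by exact_mod_cast hn1
      set M : ℕ := ⌈1024 * κ ^ 2 * n⌉₊ with hM
      have hM1 : 1 ≤ M := Nat.one_le_ceil_iff.mpr (by positivity)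
      refine (hUB ⌊α * n⌋₊ n (RK (κ * Real.sqrt n)) (chainsA n M J)).trans ?_
      set row : ℝ := ((κ * Real.sqrt n / 2 + 1) * (2 / Real.sqrt M)) ^ J + 2 * (9 / 10) ^ M with hrow
      have hrow0 : 0 ≤ row := by positivity
      have h1 : ∑ L ∈ chainsA n M J, (((E (RK (κ * Real.sqrt n)) L).card : ℝ) / 2 ^ n) ^ ⌊α * n⌋₊ ≤
          (chainsA n M J).card * row ^ ⌊α * n⌋₊ := by
        rw [← nsmul_eq_mul]
        refine Finset.sum_le_card_nsmul _ _ _ (fun L hL => ?_)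
        refine pow_le_pow_left₀ (by positivity) ?_ _
        exact hRA n M J (κ * Real.sqrt n) hM1 (by positivity) hn2.1 L hL
      have h2 : ((chainsA n M J).card : ℝ) ≤ (2 ^ (2 ^ J) * (n.choose M : ℝ)) ^ J := by
        have h3 := (hNCA n M J).1
        have h4 : ((chainsA n M J).card : ℝ) ≤ 2 ^ (2 ^ J) * (n.choose M : ℝ) ^ J := by
          exact_mod_cast h3
        refine h4.trans ?_
        rw [mul_pow]
        gcongr
        exact le_self_pow₀ (one_le_pow₀ (by norm_num)) (by omega)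
      calc (2 : ℝ) ^ n * ∑ L ∈ chainsA n M J,
            (((E (RK (κ * Real.sqrt n)) L).card : ℝ) / 2 ^ n) ^ ⌊α * n⌋₊
          ≤ 2 ^ n * ((chainsA n M J).card * row ^ ⌊α * n⌋₊) := by gcongr
        _ ≤ 2 ^ n * ((2 ^ (2 ^ J) * (n.choose M : ℝ)) ^ J * row ^ ⌊α * n⌋₊) := by gcongr
        _ = 2 ^ n * (2 ^ (2 ^ J) * (n.choose M : ℝ)) ^ J * row ^ ⌊α * n⌋₊ := by ring
  refine ⟨main, fun α₀ c δ _ _ hα₀ hjump => ?_⟩
  obtain ⟨η, hη, hge, -⟩ := hjump
  have hα₀0 : 0 < α₀ := lt_of_le_of_lt (by positivity) hα₀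
  refine jump_le α₀ (c + δ) (4096 * κ ^ 2 * Real.log (Real.exp 1 / κ))
    (fun α => 4096 * κ ^ 2 * (1 + 1 / α)) η hη hα₀ ?_ ?_
  · have : α₀ ≠ 0 := hα₀0.ne'
    fun_prop (disch := assumption)
  · intro α h1 h2 h3
    exact le_of_whp (m := fun n => ⌊α * n⌋₊) (fun n G => (diam (SBP κ G) : ℝ)) _ _
      (hge α h1 h2) (main α h3)

end Pool.Agent.H80.JD
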