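import Pool.Agent.H80.JD.FinA

set_option autoImplicit false

namespace Pool.Agent.H80.JD

open Finset Filter Topology

lemma pr_nonneg (k : ℕ) (t : ℝ) : 0 ≤ pr k t := by unfold pr; positivity

lemma pr_le_one (k : ℕ) (t : ℝ) : pr k t ≤ 1 := by
  unfold pr
  rw [div_le_one (by positivity)]
  have h := card_add_card_not (fun h : Fin k → Bool => |((ip h (zero k) : ℤ) : ℝ)| ≤ t)
  rw [card_rows] at h
  have : Nat.card {h : Fin k → Bool // |((ip h (zero k) : ℤ) : ℝ)| ≤ t} ≤ 2 ^ k := by omega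
  exact_mod_cast this

lemma card_wt_eq (n M : ℕ) :
    (univ.filter (fun D : Fin n → Bool => hammingDist (zero n) D = M)).card ≤ n.choose M := by
  classical
  have h1 : (powersetCard M (univ : Finset (Fin n))).card = n.choose M := by
    rw [card_powersetCard]; simp
  rw [← h1]
  refine Finset.card_le_card_of_injOn (fun D => univ.filter (fun c => D c = true)) ?_ ?_
  · intro D hD
    simp only [coe_filter, mem_univ, true_and, Set.mem_setOf_eq] at hD
    simp only [mem_coe, mem_powersetCard, subset_univ, true_and]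
    rw [← hammingDist_zero_eq]; exact hD
  · intro D _ D' _ h
    funext c
    have := Finset.ext_iff.mp h c
    simp only [mem_filter, mem_univ, true_and] at this
    cases hc : D c <;> cases hc' : D' c <;> simp_all

theorem finB (hUB : T_UB) (hLIM : T_LIM) (hPR2 : T_PR2) (hMID : T_MID) (hGT : T_GT)
    (hLB1 : T_LB1) (hLB2 : T_LB2) (hLB3 : T_LB3) : StatementB := by
  intro κ hκ
  obtain ⟨c, x₀, hc, hx₀, hx₀1, hx₀κ, hq⟩ := hLB2 κ hκ
  obtain ⟨hP0, hP1⟩ := hGT.2.1 κ hκ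
  obtain ⟨C, α₁, hC, hα₁, hα₁c, hexp⟩ := hLB3 (Φ κ) c x₀ hP0 hP1 hc hx₀ hx₀1
  have main : ∀ α : ℝ, α₁ ≤ α → α < αc κ → SLe κ α (C * (αc κ - α) ^ 2) := by
    intro α hα hαc
    have hα0 : 0 < α := hα₁.trans_le hα
    obtain ⟨hx1, hq0, hneg⟩ := hexp α hα hαc
    have hxpos : 0 < C * (αc κ - α) ^ 2 := by
      have : 0 < αc κ - α := by linarith
      positivity
    change C * (αc κ - α) ^ 2 ≤ x₀ at hx1
    change 0 < Φ κ - c * Real.sqrt (C * (αc κ - α) ^ 2) at hq0
    change Real.log 2 + C * (αc κ - α) ^ 2 * Real.log (Real.exp 1 / (C * (αc κ - α) ^ 2)) +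
          α * Real.log (Φ κ - c * Real.sqrt (C * (αc κ - α) ^ 2)) < 0 at hneg
    generalize hx : C * (αc κ - α) ^ 2 = x at *
    have hxlt1 : x < 1 := lt_of_le_of_lt hx1 hx₀1
    have hsx : Real.sqrt x < κ := lt_of_le_of_lt (Real.sqrt_le_sqrt hx1) hx₀κ
    obtain ⟨-, hqlt⟩ := hq x hxpos hx1
    set row : ℕ → ℝ := fun n =>
      pr ⌈x * n⌉₊ (Real.sqrt x * Real.sqrt n) * pr (n - ⌈x * n⌉₊) (κ * Real.sqrt n) +
      (1 - pr ⌈x * n⌉₊ (Real.sqrt x * Real.sqrt n)) *
        pr (n - ⌈x * n⌉₊) (κ * Real.sqrt n - Real.sqrt x * Real.sqrt n) with hrow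
    have hrow0 : ∀ n, 0 ≤ row n := fun n =>
      add_nonneg (mul_nonneg (pr_nonneg _ _) (pr_nonneg _ _))
        (mul_nonneg (by linarith [pr_le_one ⌈x * n⌉₊ (Real.sqrt x * Real.sqrt n)])
          (pr_nonneg _ _))
    have hlim := hLIM x α (Φ κ - c * Real.sqrt x) 1 1 row hxpos hxlt1 hα0 hq0 (by norm_num)
      hrow0 (((hLB1 κ x hxpos hxlt1 hsx).eventually (gt_mem_nhds hqlt)).mono (fun n hn => hn.le))
      (by simpa using hneg)
    refine tendsto_prob_one (m := fun n => ⌊α * n⌋₊)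
      (fun n G => (diam (SBP κ G) : ℝ) ≤ x * n)
      (fun n G => ∃ y, ∃ L ∈ (univ.filter
        (fun D : Fin n → Bool => hammingDist (zero n) D = ⌈x * n⌉₊)).image (fun D => [D]),
        SolR (RK (κ * Real.sqrt n)) G y ∧ ∀ D ∈ L, SolR (RK (κ * Real.sqrt n)) G (xr y D)) _
      ?_ ?_ hlim
    · filter_upwards [eventually_ge_atTop 1] with n hn1 G hG
      push Not at hG
      have hnpos : (0 : ℝ) < n := by exact_mod_cast hn1
      have hM1 : 1 ≤ ⌈x * n⌉₊ := Nat.one_le_ceil_iff.mpr (by positivity)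
      have hle : ⌈x * n⌉₊ ≤ diam (SBP κ G) := Nat.ceil_le.mpr hG.le
      have hlt : ⌈x * n⌉₊ - 1 < diam (SBP κ G) := by omega
      obtain ⟨y, z, hyz, hd⟩ := exists_of_lt_diam hlt
      obtain ⟨w, hyw, hw⟩ := hMID n (SBP κ G) y z ⌈x * n⌉₊ hyz (by omega)
      refine ⟨y, [xr y w], ?_, hyw.1, ?_⟩
      · refine Finset.mem_image_of_mem _ ?_
        simp only [mem_filter, mem_univ, true_and]
        rw [hammingDist_xr_zero]; exact hw
      · intro D hD
        simp only [List.mem_singleton] at hD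
        subst hD
        rw [xr_xr]; exact hyw.right
    · refine Eventually.of_forall (fun n => ?_)
      refine (hUB ⌊α * n⌋₊ n (RK (κ * Real.sqrt n)) _).trans ?_
      have h1 : ∑ L ∈ (univ.filter
          (fun D : Fin n → Bool => hammingDist (zero n) D = ⌈x * n⌉₊)).image (fun D => [D]),
          (((E (RK (κ * Real.sqrt n)) L).card : ℝ) / 2 ^ n) ^ ⌊α * n⌋₊ ≤
          ((univ.filter (fun D : Fin n → Bool =>
            hammingDist (zero n) D = ⌈x * n⌉₊)).image (fun D => [D])).card *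
            row n ^ ⌊α * n⌋₊ := by
        rw [← nsmul_eq_mul]
        refine Finset.sum_le_card_nsmul _ _ _ (fun L hL => ?_)
        refine pow_le_pow_left₀ (by positivity) ?_ _
        obtain ⟨D, hD, rfl⟩ := Finset.mem_image.mp hL
        simp only [mem_filter, mem_univ, true_and] at hD
        exact hPR2 n ⌈x * n⌉₊ D (κ * Real.sqrt n) (Real.sqrt x * Real.sqrt n) hD (by positivity)
      have h2 : (((univ.filter (fun D : Fin n → Bool =>
            hammingDist (zero n) D = ⌈x * n⌉₊)).image (fun D => [D])).card : ℝ) ≤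
          (n.choose ⌈x * n⌉₊ : ℝ) := by
        exact_mod_cast (Finset.card_image_le.trans (card_wt_eq n ⌈x * n⌉₊))
      have h3 : 0 ≤ row n ^ ⌊α * n⌋₊ := pow_nonneg (hrow0 n) _
      calc _ ≤ (2 : ℝ) ^ n * ((((univ.filter (fun D : Fin n → Bool =>
            hammingDist (zero n) D = ⌈x * n⌉₊)).image (fun D => [D])).card : ℝ) *
            row n ^ ⌊α * n⌋₊) := by gcongr
        _ ≤ 2 ^ n * ((n.choose ⌈x * n⌉₊ : ℝ) * row n ^ ⌊α * n⌋₊) := by gcongr
        _ = 2 ^ n * (1 * (n.choose ⌈x * n⌉₊ : ℝ)) ^ 1 * row n ^ ⌊α * n⌋₊ := by ring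
  refine ⟨C, α₁, hC, hα₁, hα₁c, main, fun α₀ c' δ _ _ h1 h2 hjump => ?_⟩
  obtain ⟨η, hη, hge, -⟩ := hjump
  refine jump_le α₀ (c' + δ) α₁ (fun α => C * (αc κ - α) ^ 2) η hη h1 ?_ ?_
  · fun_prop
  · intro α h3 h4 h5
    exact le_of_whp (m := fun n => ⌊α * n⌋₊) (fun n G => (diam (SBP κ G) : ℝ)) _ _
      (hge α h3 h4) (main α h5 (h4.trans h2))

end Pool.Agent.H80.JD
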