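import Pool.Agent.H80.JD.FinB

set_option autoImplicit false

namespace Pool.Agent.H80.JD

open Finset Filter Topology

/-- the common part of theorem C for both models -/
theorem coreC (hUB : T_UB) (hLIM : T_LIM) (hCHC : T_CHC) (hNCC : T_NCC) (hLC1 : T_LC1)
    (hLC2 : T_LC2) (κ α p : ℝ) (hκ : 16 ≤ κ) (hα : 0 < α) (hp0 : 0 < p) (hp1 : p < 1)
    (hαp : 144 * (Real.log κ / κ) ^ 2 ≤ α * p) (h2p : 1 - Φ κ ≤ 2 * p)
    (R : ℕ → ℤ → Prop) (v : ℕ → ℝ) (hv : Tendsto v atTop (𝓝 p))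
    (hrow : ∀ n M J : ℕ, ∀ L ∈ chainsC n M J, ((E (R n) L).card : ℝ) / 2 ^ n ≤
      1 - (J + 1) * v n + (J + 1) * J / 2 * (4 * (1 - pr (n - M) (κ * Real.sqrt n)))) :
    Tendsto (fun n : ℕ => prob ⌊α * n⌋₊ n (fun G => (diam (SolR (R n) G) : ℝ) ≤
      144 * (Real.log κ / κ ^ 2) * (1 + 1 / (α * p)) * n)) atTop (𝓝 1) := by
  by_cases hbig : 1 ≤ 144 * (Real.log κ / κ ^ 2) * (1 + 1 / (α * p))
  · exact tendsto_prob_one_of_true _ (fun n G => diam_le_of_one_le _ _ hbig)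
  push Not at hbig
  obtain ⟨hx0, hx1, r₀, hr₀, hlimr⟩ := hLC1 κ hκ
  have hκ0 : 0 < κ := by linarith
  have hκ3 : 0 < κ ^ 3 := by positivity
  have hr₀2 : r₀ ≤ 2 * p / κ ^ 3 := hr₀.trans (by gcongr)
  obtain ⟨hneg, hlt⟩ := hLC2 κ α p r₀ hκ hα hp0 hp1 hαp hr₀2
  have hαp0 : 0 < α * p := by positivity
  set J : ℕ := ⌈6 / (α * p)⌉₊ with hJ
  set x : ℝ := 6 * Real.log κ / κ ^ 2 with hx
  have hJ1 : 1 ≤ J := Nat.one_le_ceil_iff.mpr (by positivity)
  have hJle : (J : ℝ) ≤ 6 / (α * p) + 1 := (Nat.ceil_lt_add_one (by positivity)).le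
  set row : ℕ → ℝ := fun n => max 0 (1 - (J + 1) * v n + (J + 1) * J / 2 *
    (4 * (1 - pr (n - ⌈x * n⌉₊) (κ * Real.sqrt n)))) with hrowdef
  have hrowlim : Tendsto (fun n : ℕ => 1 - ((J : ℝ) + 1) * v n + ((J : ℝ) + 1) * J / 2 *
      (4 * (1 - pr (n - ⌈x * n⌉₊) (κ * Real.sqrt n)))) atTop
      (𝓝 (1 - ((J : ℝ) + 1) * p + ((J : ℝ) + 1) * J / 2 * (4 * r₀))) :=
    (tendsto_const_nhds.sub (tendsto_const_nhds.mul hv)).add
      (tendsto_const_nhds.mul (tendsto_const_nhds.mul hlimr))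
  have hrowev : ∀ᶠ n in atTop, row n ≤ Real.exp (-((J : ℝ) + 1) * p / 2) := by
    filter_upwards [hrowlim.eventually (gt_mem_nhds hlt)] with n hn
    exact max_le (Real.exp_pos _).le hn.le
  have hlim := hLIM x α (Real.exp (-((J : ℝ) + 1) * p / 2)) J J row hx0 hx1 hα (Real.exp_pos _)
    (by positivity) (fun n => le_max_left _ _) hrowev hneg
  refine tendsto_prob_one (m := fun n => ⌊α * n⌋₊)
    (fun n G => (diam (SolR (R n) G) : ℝ) ≤
      144 * (Real.log κ / κ ^ 2) * (1 + 1 / (α * p)) * n)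
    (fun n G => ∃ y, ∃ L ∈ chainsC n ⌈x * n⌉₊ J,
      SolR (R n) G y ∧ ∀ D ∈ L, SolR (R n) G (xr y D)) _ ?_ ?_ hlim
  · filter_upwards [eventually_ge_atTop 1,
      (tendsto_natCast_atTop_atTop (R := ℝ)).eventually_ge_atTop (1 / x)] with n hn1 hn2 G hG
    push Not at hG
    have hnpos : (0 : ℝ) < n := by exact_mod_cast hn1
    have hn3 : 1 ≤ x * n := by
      rw [div_le_iff₀ hx0] at hn2; linarith
    set M : ℕ := ⌈x * n⌉₊ with hM
    have hM1 : 1 ≤ M := Nat.one_le_ceil_iff.mpr (by positivity)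
    have hMle : (M : ℝ) ≤ 2 * x * n := by
      have := (Nat.ceil_lt_add_one (a := x * (n : ℝ)) (by positivity)).le
      linarith
    have hα1 : 0 < 1 / (α * p) := by positivity
    have hMM : (0 : ℝ) ≤ M := Nat.cast_nonneg M
    have hxx : x = 6 * (Real.log κ / κ ^ 2) := by rw [hx]; ring
    have hJle2 : (J : ℝ) ≤ 6 * (1 + 1 / (α * p)) := by
      have : 6 / (α * p) = 6 * (1 / (α * p)) := by ring
      linarith
    have hJM : (J : ℝ) * M ≤ 72 * (Real.log κ / κ ^ 2) * (1 + 1 / (α * p)) * n := by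
      have h1 : (J : ℝ) * M ≤ (6 * (1 + 1 / (α * p))) * (2 * x * n) :=
        mul_le_mul hJle2 hMle hMM (by positivity)
      rw [hxx] at h1
      linarith
    have hl0 : 0 < Real.log κ / κ ^ 2 := by
      have : 0 < 6 * (Real.log κ / κ ^ 2) := by rw [← hxx]; exact hx0
      linarith
    have hpos : 0 < (Real.log κ / κ ^ 2) * (1 + 1 / (α * p)) * n := by positivity
    have hJM2 : 2 * (J : ℝ) * M ≤ n := by
      have h3 : 144 * (Real.log κ / κ ^ 2) * (1 + 1 / (α * p)) * n ≤ 1 * n := by gcongr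
      linarith
    have hlt2 : J * M < diam (SolR (R n) G) := by
      have : ((J * M : ℕ) : ℝ) < (diam (SolR (R n) G) : ℝ) := by
        push_cast
        linarith
      exact_mod_cast this
    obtain ⟨y, z, hyz, hd⟩ := exists_of_lt_diam hlt2
    obtain ⟨L, hL, hL2⟩ := hCHC n (SolR (R n) G) y z M J hyz hd (by exact_mod_cast hJM2) hM1
    exact ⟨y, L, hL, hyz.1, hL2⟩
  · refine Eventually.of_forall (fun n => ?_)
    refine (hUB ⌊α * n⌋₊ n (R n) (chainsC n ⌈x * n⌉₊ J)).trans ?_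
    have hr0 : 0 ≤ row n := le_max_left _ _
    have h1 : ∑ L ∈ chainsC n ⌈x * n⌉₊ J, (((E (R n) L).card : ℝ) / 2 ^ n) ^ ⌊α * n⌋₊ ≤
        (chainsC n ⌈x * n⌉₊ J).card * row n ^ ⌊α * n⌋₊ := by
      rw [← nsmul_eq_mul]
      refine Finset.sum_le_card_nsmul _ _ _ (fun L hL => ?_)
      refine pow_le_pow_left₀ (by positivity) ?_ _
      exact (hrow n ⌈x * n⌉₊ J L hL).trans (le_max_right _ _)
    have h2 : ((chainsC n ⌈x * n⌉₊ J).card : ℝ) ≤ ((J : ℝ) * (n.choose ⌈x * n⌉₊ : ℝ)) ^ J := by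
      exact_mod_cast (hNCC n ⌈x * n⌉₊ J).1
    have h3 : 0 ≤ row n ^ ⌊α * n⌋₊ := pow_nonneg hr0 _
    calc _ ≤ (2 : ℝ) ^ n * ((chainsC n ⌈x * n⌉₊ J).card * row n ^ ⌊α * n⌋₊) := by gcongr
      _ ≤ 2 ^ n * (((J : ℝ) * (n.choose ⌈x * n⌉₊ : ℝ)) ^ J * row n ^ ⌊α * n⌋₊) := by gcongr
      _ = 2 ^ n * ((J : ℝ) * (n.choose ⌈x * n⌉₊ : ℝ)) ^ J * row n ^ ⌊α * n⌋₊ := by ring

theorem finC (hUB : T_UB) (hLIM : T_LIM) (hCHC : T_CHC) (hNCC : T_NCC) (hRC : T_RC)
    (hLC1 : T_LC1) (hLC2 : T_LC2) (hCLT : T_CLT) (hGT : T_GT) : StatementC := by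
  refine ⟨144, 16, by norm_num, by norm_num, fun κ hκ p => ?_⟩
  have hκ0 : 0 < κ := by linarith
  obtain ⟨-, hG2, hG3, hG4⟩ := hGT
  obtain ⟨hΦ0, hΦ1⟩ := hG2 κ hκ0
  have hclt : Tendsto (fun n : ℕ => pr n (κ * Real.sqrt n)) atTop (𝓝 (Φ κ)) := by
    have h1 : Tendsto (fun n : ℕ => (n : ℝ) / n) atTop (𝓝 1) := by
      refine tendsto_const_nhds.congr' ?_
      filter_upwards [eventually_ge_atTop 1] with n hn
      have : (n : ℝ) ≠ 0 := by
        have : (0 : ℝ) < n := by exact_mod_cast hn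
        exact this.ne'
      rw [div_self this]
    have h2 := hCLT (fun n => n) 1 κ one_pos hκ0 h1
    simpa using h2
  have hv1 : Tendsto (fun n : ℕ => 1 - pr n (κ * Real.sqrt n)) atTop (𝓝 (1 - Φ κ)) :=
    tendsto_const_nhds.sub hclt
  have hcont : ∀ p α₀ : ℝ, 0 < p → 0 < α₀ →
      ContinuousAt (fun α => 144 * (Real.log κ / κ ^ 2) * (1 + 1 / (α * p))) α₀ := by
    intro p α₀ hp hα₀
    have h1 : α₀ * p ≠ 0 := by positivity
    have h2 : ContinuousAt (fun α : ℝ => α * p) α₀ := by fun_prop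
    exact (continuousAt_const).mul (continuousAt_const.add (continuousAt_const.div h2 h1))
  constructor
  · intro hp
    rw [hG4 κ hκ0.le] at hp
    have hp0 : 0 < p := by rw [hp]; linarith
    have hp1 : p < 1 := by rw [hp]; linarith
    have main : ∀ α : ℝ, 0 < α → 144 * (Real.log κ / κ) ^ 2 ≤ α * p →
        SLe κ α (144 * (Real.log κ / κ ^ 2) * (1 + 1 / (α * p))) := by
      intro α hα hαp
      exact coreC hUB hLIM hCHC hNCC hLC1 hLC2 κ α p hκ hα hp0 hp1 hαp (by rw [hp]; linarith)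
        (fun n => RK (κ * Real.sqrt n)) (fun n => 1 - pr n (κ * Real.sqrt n)) (by rw [hp]; exact hv1)
        (fun n M J L hL => (hRC n M J (κ * Real.sqrt n) (by positivity) L hL).1)
    refine ⟨main, fun α₀ c δ _ _ hα₀ h1 hjump => ?_⟩
    obtain ⟨η, hη, hge, -⟩ := hjump
    refine jump_le α₀ (c + δ) (max (α₀ / 2) (144 * (Real.log κ / κ) ^ 2 / p))
      (fun α => 144 * (Real.log κ / κ ^ 2) * (1 + 1 / (α * p))) η hη ?_ (hcont p α₀ hp0 hα₀) ?_
    · refine max_lt (by linarith) ?_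
      rw [div_lt_iff₀ hp0]; exact h1
    · intro α h3 h4 h5
      have hα : 0 < α := lt_of_lt_of_le (by linarith) ((le_max_left _ _).trans h5)
      have h6 : 144 * (Real.log κ / κ) ^ 2 ≤ α * p := by
        rw [← div_le_iff₀ hp0]; exact (le_max_right _ _).trans h5
      exact le_of_whp (m := fun n => ⌊α * n⌋₊) (fun n G => (diam (SBP κ G) : ℝ)) _ _
        (hge α h3 h4) (main α hα h6)
  · intro hp
    rw [hG3 κ hκ0.le] at hp
    have hp0 : 0 < p := by rw [hp]; linarith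
    have hp1 : p < 1 := by rw [hp]; linarith
    have main : ∀ α : ℝ, 0 < α → 144 * (Real.log κ / κ) ^ 2 ≤ α * p →
        ALe (-κ) α (144 * (Real.log κ / κ ^ 2) * (1 + 1 / (α * p))) := by
      intro α hα hαp
      have h := coreC hUB hLIM hCHC hNCC hLC1 hLC2 κ α p hκ hα hp0 hp1 hαp (by rw [hp]; linarith)
        (fun n v => -(κ * Real.sqrt n) ≤ (v : ℝ)) (fun n => (1 - pr n (κ * Real.sqrt n)) / 2)
        (by rw [hp]; exact hv1.div_const 2)
        (fun n M J L hL => (hRC n M J (κ * Real.sqrt n) (by positivity) L hL).2)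
      have heq : ∀ (n : ℕ) (G : Fin ⌊α * n⌋₊ → Fin n → Bool),
          diam (SolR (fun v : ℤ => -(κ * Real.sqrt n) ≤ (v : ℝ)) G) = diam (ABP (-κ) G) := by
        intro n G
        congr 1
        funext x
        unfold SolR ABP
        simp only [neg_mul]
      simp only [heq] at h
      exact h
    refine ⟨main, fun α₀ c δ _ _ hα₀ h1 hjump => ?_⟩
    obtain ⟨η, hη, hge, -⟩ := hjump
    refine jump_le α₀ (c + δ) (max (α₀ / 2) (144 * (Real.log κ / κ) ^ 2 / p))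
      (fun α => 144 * (Real.log κ / κ ^ 2) * (1 + 1 / (α * p))) η hη ?_ (hcont p α₀ hp0 hα₀) ?_
    · refine max_lt (by linarith) ?_
      rw [div_lt_iff₀ hp0]; exact h1
    · intro α h3 h4 h5
      have hα : 0 < α := lt_of_lt_of_le (by linarith) ((le_max_left _ _).trans h5)
      have h6 : 144 * (Real.log κ / κ) ^ 2 ≤ α * p := by
        rw [← div_le_iff₀ hp0]; exact (le_max_right _ _).trans h5
      exact le_of_whp (m := fun n => ⌊α * n⌋₊) (fun n G => (diam (ABP (-κ) G) : ℝ)) _ _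
        (hge α h3 h4) (main α hα h6)

end Pool.Agent.H80.JD
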