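import Pool.Agent.H80.JD.Walk

set_option autoImplicit false

namespace Pool.Agent.H80.JD

open Finset Filter Topology

lemma pot_zero (m : ℕ) (B A : ℝ) (hB : 0 < B) : pot B A (fun _ : Fin m => (0 : ℤ)) = m := by
  unfold pot ff hh
  simp [hB]

theorem finD (hSMG : T_SMG) (hONE : T_ONE) (hPTH1 : T_PTH1) (hPTH2 : T_PTH2) (hASY : T_ASY) :
    StatementD := by
  intro κ α hκ hα hακ
  refine tendsto_prob_one (m := fun n => ⌊α * n⌋₊)
    (fun n G => diam (SBP κ G) = n)
    (fun n G => badSeq (stp (1000 * Real.sqrt (⌊α * n⌋₊ : ℕ)))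
      (pot (1000 * Real.sqrt (⌊α * n⌋₊ : ℕ)) (64 * (⌊α * n⌋₊ : ℕ))) (64 * (⌊α * n⌋₊ : ℕ)) n
      (fun _ => 0) (fun i j => G j i)) _ ?_ ?_ (hASY α hα)
  · filter_upwards [eventually_ge_atTop 1] with n hn G hG
    by_contra hbad
    obtain ⟨x, hx⟩ := hPTH1 _ _ _ n _ _ (by positivity) hbad
    refine hG (hPTH2 _ n κ (1000 * Real.sqrt (⌊α * n⌋₊ : ℕ)) G x ?_ (fun t ht j => ?_))
    · have h1 : ((⌊α * n⌋₊ : ℕ) : ℝ) ≤ α * n := Nat.floor_le (by positivity)
      have h2 : (3 * (1000 * Real.sqrt (⌊α * n⌋₊ : ℕ))) ^ 2 ≤ (κ * Real.sqrt n) ^ 2 := by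
        rw [mul_pow, mul_pow, mul_pow, Real.sq_sqrt (by positivity), Real.sq_sqrt (by positivity)]
        have hn0 : (0 : ℝ) ≤ n := Nat.cast_nonneg n
        nlinarith [mul_nonneg hα.le hn0]
      exact (sq_le_sq₀ (by positivity) (by positivity)).mp h2
    · have := hx t ht j
      simpa using this
  · have h1 : ∀ᶠ n : ℕ in atTop, 1 ≤ ⌊α * n⌋₊ := by
      filter_upwards [(tendsto_natCast_atTop_atTop (R := ℝ)).eventually_ge_atTop (1 / α)] with n hn
      rw [Nat.one_le_floor_iff]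
      rw [div_le_iff₀ hα] at hn
      linarith
    filter_upwards [h1] with n hm
    set m : ℕ := ⌊α * n⌋₊ with hmdef
    have hm0 : (0 : ℝ) < m := by exact_mod_cast hm
    set B : ℝ := 1000 * Real.sqrt m with hB
    have hB0 : 0 < B := by positivity
    obtain ⟨hone1, hone2⟩ := hONE m B hm hB
    set q : ℝ := Real.sqrt (Real.sqrt m) with hq
    have hq0 : 0 < q := by positivity
    have hq4 : q ^ 4 = m := by
      have h2 : q ^ 2 = Real.sqrt m := Real.sq_sqrt (by positivity)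
      have h3 : (q ^ 2) ^ 2 = m := by rw [h2]; exact Real.sq_sqrt hm0.le
      rw [← h3]; ring
    have hcard : (Fintype.card (Fin m → Bool) : ℝ) = 2 ^ m := by simp
    have hS := hSMG (Fin m → ℤ) (Fin m → Bool) (stp B) (pot B (64 * m)) (32 * m) (33 * m)
      (64 * m) (1 / (3 * q ^ 3)) (by positivity) hone1
      (fun S h2 h3 => by rw [hcard]; exact hone2 S h2 h3) n (fun _ => 0)
    rw [hcard, pot_zero m B _ hB0] at hS
    -- transpose
    have htr : Nat.card {G : Fin m → Fin n → Bool // badSeq (stp B) (pot B (64 * m)) (64 * m) n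
        (fun _ => (0 : ℤ)) (fun i j => G j i)} =
        Nat.card {v : Fin n → Fin m → Bool // badSeq (stp B) (pot B (64 * m)) (64 * m) n
        (fun _ => (0 : ℤ)) v} := by
      refine Nat.card_congr ?_
      exact (Equiv.piComm (fun (_ : Fin m) (_ : Fin n) => Bool)).subtypeEquiv (fun G => Iff.rfl)
    unfold prob
    rw [htr, div_le_iff₀ (by positivity)]
    have hpow : ((2 : ℝ) ^ m) ^ n = 2 ^ (m * n) := by rw [← pow_mul]
    rw [hpow] at hS
    refine hS.trans ?_
    have e1 : 1 / (3 * q ^ 3) * ((m : ℝ) - 64 * m) ≤ -(10 * q) := by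
      rw [← hq4]
      have : 1 / (3 * q ^ 3) * (q ^ 4 - 64 * q ^ 4) = -(21 * q) := by
        field_simp; ring
      rw [this]; nlinarith
    have e2 : 1 / (3 * q ^ 3) * (33 * (m : ℝ) - 64 * m) ≤ -(10 * q) := by
      rw [← hq4]
      have : 1 / (3 * q ^ 3) * (33 * q ^ 4 - 64 * q ^ 4) = -(31 / 3 * q) := by
        field_simp; ring
      rw [this]; nlinarith
    have e3 := Real.exp_le_exp.mpr e1
    have e4 := Real.exp_le_exp.mpr e2
    have hn0 : (0 : ℝ) ≤ n := Nat.cast_nonneg n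
    have : Real.exp (1 / (3 * q ^ 3) * ((m : ℝ) - 64 * m)) +
        n * Real.exp (1 / (3 * q ^ 3) * (33 * (m : ℝ) - 64 * m)) ≤
        ((n : ℝ) + 1) * Real.exp (-(10 * q)) := by
      nlinarith [mul_le_mul_of_nonneg_left e4 hn0]
    gcongr

end Pool.Agent.H80.JD
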