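import Mathlib

/-!
# Binary perceptrons and their clusters

Sign vectors are coded by bit vectors: `false` is the sign `1`, `true` is the sign `-1`.
-/

set_option autoImplicit false

namespace Pool.Agent.H80.Perceptron

open Filter Topology ProbabilityTheory

/-- the sign coded by a bit -/
def sign (b : Bool) : ℤ := if b then -1 else 1

/-- inner product of the sign vectors coded by `g` and `x` -/
def inner {n : ℕ} (g x : Fin n → Bool) : ℤ := ∑ i, sign (g i) * sign (x i)

/-- solutions of the symmetric binary perceptron with margin `κ` -/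
def SBP (κ : ℝ) (m n : ℕ) (G : Fin m → Fin n → Bool) (x : Fin n → Bool) : Prop :=
  ∀ j, |((inner (G j) x : ℤ) : ℝ)| ≤ κ * Real.sqrt n

/-- solutions of the asymmetric binary perceptron with margin `κ` -/
def ABP (κ : ℝ) (m n : ℕ) (G : Fin m → Fin n → Bool) (x : Fin n → Bool) : Prop :=
  ∀ j, κ * Real.sqrt n ≤ ((inner (G j) x : ℤ) : ℝ)

/-- `x`, `y` are members of `S` which differ in exactly one coordinate -/
def Adjacent {n : ℕ} (S : (Fin n → Bool) → Prop) (x y : Fin n → Bool) : Prop :=
  S x ∧ S y ∧ hammingDist x y = 1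

/-- `x`, `y` lie in the same cluster (connected component) of `S` -/
def SameCluster {n : ℕ} (S : (Fin n → Bool) → Prop) (x y : Fin n → Bool) : Prop :=
  S x ∧ Relation.ReflTransGen (Adjacent S) x y

/-- the largest diameter of a cluster of `S`; it is `0` if `S` is empty -/
noncomputable def maxDiam {n : ℕ} (S : (Fin n → Bool) → Prop) : ℕ :=
  sSup {d | ∃ x y, SameCluster S x y ∧ hammingDist x y = d}

/-- probability of the event `E` for a uniformly random `m × n` sign matrix -/
noncomputable def prob (m n : ℕ) (E : (Fin m → Fin n → Bool) → Prop) : ℝ :=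
  (Nat.card {G : Fin m → Fin n → Bool // E G} : ℝ) / 2 ^ (m * n)

/-- a model: the solution set of every sign matrix -/
abbrev Model : Type := ∀ m n : ℕ, (Fin m → Fin n → Bool) → (Fin n → Bool) → Prop

/-- `D_n(α) ≤ b` with high probability, `m = ⌊α n⌋` -/
def DiamLe (S : Model) (α b : ℝ) : Prop :=
  Tendsto (fun n : ℕ => prob ⌊α * n⌋₊ n (fun G => (maxDiam (S _ n G) : ℝ) ≤ b * n)) atTop (𝓝 1)

/-- `D_n(α) ≥ b` with high probability, `m = ⌊α n⌋` -/
def DiamGe (S : Model) (α b : ℝ) : Prop :=
  Tendsto (fun n : ℕ => prob ⌊α * n⌋₊ n (fun G => b * n ≤ (maxDiam (S _ n G) : ℝ))) atTop (𝓝 1)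

/-- the largest cluster diameter jumps at `α₀` from `≥ c + δ` (below `α₀`) to `≤ c` (above) -/
def JumpsAt (S : Model) (α₀ c δ : ℝ) : Prop :=
  ∃ η > 0, (∀ α, α₀ - η < α → α < α₀ → DiamGe S α (c + δ)) ∧
    ∀ α, α₀ < α → α < α₀ + η → DiamLe S α c

/-- `P(|N| ≤ κ)`, `N` standard normal -/
noncomputable def P (κ : ℝ) : ℝ := (gaussianReal 0 1).real (Set.Icc (-κ) κ)

/-- the satisfiability threshold of the symmetric binary perceptron -/
noncomputable def αc (κ : ℝ) : ℝ := - Real.log 2 / Real.log (P κ)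

end Pool.Agent.H80.Perceptron
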