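import Pool.Agent.H80.JD.Walk

set_option autoImplicit false

namespace Pool.Agent.H80.JD

open Finset Filter Topology

lemma ff_nonneg (B A : ℝ) (hA : 0 ≤ A) (s : ℤ) : 0 ≤ ff B A s := by
  unfold ff
  split_ifs
  · positivity
  · linarith

lemma abs_lt_of_pot_le {m : ℕ} (B A : ℝ) (hA : 0 ≤ A) (S : Fin m → ℤ) (h : pot B A S ≤ A)
    (j : Fin m) : |((S j : ℤ) : ℝ)| < B := by
  by_contra hc
  have h1 : ff B A (S j) = A + 1 := by unfold ff; rw [if_neg hc]
  have h2 : ff B A (S j) ≤ pot B A S :=
    Finset.single_le_sum (f := fun j => ff B A (S j)) (fun i _ => ff_nonneg B A hA (S i))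
      (mem_univ j)
  linarith

theorem pth1 : T_PTH1 := by
  intro m B A n
  induction n with
  | zero =>
    intro S v hA hbad
    refine ⟨fun i => i.elim0, fun t ht j => ?_⟩
    have h1 : pot B A S ≤ A := by simpa [badSeq] using hbad
    simpa using abs_lt_of_pot_le B A hA S h1 j
  | succ n ih =>
    intro S v hA hbad
    simp only [badSeq, not_or, not_lt] at hbad
    obtain ⟨h1, h2⟩ := hbad
    obtain ⟨x, hx⟩ := ih (stp B S (v 0)) (Fin.tail v) hA h2
    refine ⟨Fin.cons (choice B S (v 0)) x, fun t ht j => ?_⟩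
    rcases t with _ | t
    · simpa using abs_lt_of_pot_le B A hA S h1 j
    · have h3 := hx t (by omega) j
      have h4 : ∑ i ∈ univ.filter (fun i : Fin (n + 1) => (i : ℕ) < t + 1),
          sg ((Fin.cons (choice B S (v 0)) x : Fin (n + 1) → Bool) i) * sg (v i j) =
          sg (choice B S (v 0)) * sg (v 0 j) +
          ∑ i ∈ univ.filter (fun i : Fin n => (i : ℕ) < t), sg (x i) * sg (Fin.tail v i j) := by
        rw [Finset.sum_filter, Finset.sum_filter, Fin.sum_univ_succ]
        simp [Fin.tail]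
      rw [h4, ← add_assoc]
      exact h3

end Pool.Agent.H80.JD
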