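import Pool.Agent.H80.JD.Basic

/-!
# A cluster of diameter `n` for `α ≤ 10⁻⁷ κ²`: definitions and targets

The columns of the matrix are revealed one after the other, the sign of every coordinate is chosen
greedily with respect to a barrier potential of the vector of partial sums.
-/

set_option autoImplicit false

namespace Pool.Agent.H80.JD

open Finset Filter Topology

/-- `1 / (1 - (s/B)²)` -/
noncomputable def hh (B : ℝ) (s : ℤ) : ℝ := 1 / (1 - ((s : ℝ) / B) ^ 2)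

/-- the barrier function -/
noncomputable def ff (B A : ℝ) (s : ℤ) : ℝ := if |(s : ℝ)| < B then (hh B s) ^ 4 else A + 1

/-- the derivative of the barrier function -/
noncomputable def dd (B : ℝ) (s : ℤ) : ℝ := 8 * ((s : ℝ) / B) / B * (hh B s) ^ 5

/-- the potential -/
noncomputable def pot (B A : ℝ) {m : ℕ} (S : Fin m → ℤ) : ℝ := ∑ j, ff B A (S j)

/-- the linear term -/
noncomputable def lin {m : ℕ} (D : Fin m → ℝ) (v : Fin m → Bool) : ℝ :=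
  ∑ j, D j * ((sg (v j) : ℤ) : ℝ)

open Classical in
/-- the greedy choice of the sign of the column `v` -/
noncomputable def choice (B : ℝ) {m : ℕ} (S : Fin m → ℤ) (v : Fin m → Bool) : Bool :=
  if 0 < lin (fun j => dd B (S j)) v then true else false

/-- one step of the greedy walk -/
noncomputable def stp (B : ℝ) {m : ℕ} (S : Fin m → ℤ) (v : Fin m → Bool) : Fin m → ℤ :=
  fun j => S j + sg (choice B S v) * sg (v j)

/-- the walk started at `S` with the increments `v` leaves `{Φ ≤ A}` within `n` steps -/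
def badSeq {X V : Type} (step : X → V → X) (Φ : X → ℝ) (A : ℝ) :
    (n : ℕ) → X → (Fin n → V) → Prop
  | 0, S, _ => A < Φ S
  | n + 1, S, v => A < Φ S ∨ badSeq step Φ A n (step S (v 0)) (Fin.tail v)

/-- SMG: exponential supermartingale -/
def T_SMG : Prop :=
  ∀ (X V : Type) [Fintype V] (step : X → V → X) (Φ : X → ℝ) (A₀ A₁ A₂ η : ℝ),
    0 ≤ η → (∀ S v, Φ S < A₀ → Φ (step S v) ≤ A₁) →
    (∀ S, A₀ ≤ Φ S → Φ S ≤ A₂ →
      ∑ v, Real.exp (η * Φ (step S v)) ≤ Fintype.card V * Real.exp (η * Φ S)) →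
    ∀ (n : ℕ) (S : X), (Nat.card {v : Fin n → V // badSeq step Φ A₂ n S v} : ℝ) ≤
      (Real.exp (η * (Φ S - A₂)) + n * Real.exp (η * (A₁ - A₂))) * (Fintype.card V : ℝ) ^ n

/-- KH: second and fourth moment of a sum of signs -/
def T_KH : Prop :=
  ∀ (m : ℕ) (D : Fin m → ℝ),
    ∑ v : Fin m → Bool, (lin D v) ^ 2 = 2 ^ m * ∑ j, D j ^ 2 ∧
    ∑ v : Fin m → Bool, (lin D v) ^ 4 ≤ 3 * 2 ^ m * (∑ j, D j ^ 2) ^ 2

/-- EXS: exponential moment of one step -/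
def T_EXS : Prop :=
  ∀ (m : ℕ) (D : Fin m → ℝ) (G R η : ℝ), 0 ≤ η → 0 < R → R ^ 2 = ∑ j, D j ^ 2 → G ≤ R / 4 →
    η * R ≤ 1 / 2 →
    ∑ v : Fin m → Bool, Real.exp (η * (G - |lin D v|)) ≤ 2 ^ m

/-- FS: one step of the barrier function -/
def T_FS : Prop :=
  ∀ (B : ℝ) (s x : ℤ), |(s : ℝ)| < B → hh B s ≤ B / 24 → (x = 1 ∨ x = -1) →
    |((s + x : ℤ) : ℝ)| < B ∧
    (hh B (s + x)) ^ 4 ≤ (hh B s) ^ 4 + x * dd B s + 148 / B ^ 2 * (hh B s) ^ 6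

/-- GR: second order terms against first order terms; `B = 1000 √m` -/
def T_GR : Prop :=
  ∀ (m : ℕ) (B : ℝ) (S : Fin m → ℤ), 1 ≤ m → B = 1000 * Real.sqrt m →
    (∀ j, |((S j : ℤ) : ℝ)| < B) → ∑ j, (hh B (S j)) ^ 4 ≤ 64 * m →
    (∀ j, 1 ≤ hh B (S j) ∧ hh B (S j) ≤ B / 24) ∧
    148 / B ^ 2 * ∑ j, (hh B (S j)) ^ 6 ≤ m ∧
    (32 * m ≤ ∑ j, (hh B (S j)) ^ 4 →
      0 < ∑ j, (dd B (S j)) ^ 2 ∧
      148 / B ^ 2 * ∑ j, (hh B (S j)) ^ 6 ≤ Real.sqrt (∑ j, (dd B (S j)) ^ 2) / 4) ∧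
    ∑ j, (dd B (S j)) ^ 2 ≤ 9 / 4 * (m * Real.sqrt m)

/-- ONE: one step of the greedy walk; `A = 64 m`, `η = 1 / (3 m^(3/4))` -/
def T_ONE : Prop :=
  ∀ (m : ℕ) (B : ℝ), 1 ≤ m → B = 1000 * Real.sqrt m →
    (∀ (S : Fin m → ℤ) (v : Fin m → Bool), pot B (64 * m) S < 32 * m →
      pot B (64 * m) (stp B S v) ≤ 33 * m) ∧
    ∀ S : Fin m → ℤ, 32 * m ≤ pot B (64 * m) S → pot B (64 * m) S ≤ 64 * m →
      ∑ v : Fin m → Bool,
        Real.exp (1 / (3 * Real.sqrt (Real.sqrt m) ^ 3) * pot B (64 * m) (stp B S v)) ≤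
      2 ^ m * Real.exp (1 / (3 * Real.sqrt (Real.sqrt m) ^ 3) * pot B (64 * m) S)

/-- PTH1: a walk which stays in the good set gives signs with small partial sums -/
def T_PTH1 : Prop :=
  ∀ (m : ℕ) (B A : ℝ) (n : ℕ) (S : Fin m → ℤ) (v : Fin n → Fin m → Bool), 0 ≤ A →
    ¬ badSeq (stp B) (pot B A) A n S v →
    ∃ x : Fin n → Bool, ∀ t : ℕ, t ≤ n → ∀ j : Fin m,
      |((S j + ∑ i ∈ univ.filter (fun i : Fin n => (i : ℕ) < t), sg (x i) * sg (v i j) : ℤ) : ℝ)| < B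

/-- PTH2: signs with small partial sums give a cluster of diameter `n` -/
def T_PTH2 : Prop :=
  ∀ (m n : ℕ) (κ B : ℝ) (G : Fin m → Fin n → Bool) (x : Fin n → Bool),
    3 * B ≤ κ * Real.sqrt n →
    (∀ t : ℕ, t ≤ n → ∀ j : Fin m,
      |((∑ i ∈ univ.filter (fun i : Fin n => (i : ℕ) < t), sg (x i) * sg (G j i) : ℤ) : ℝ)| < B) →
    diam (SBP κ G) = n

/-- ASY: asymptotics of the failure probability -/
def T_ASY : Prop :=
  ∀ α : ℝ, 0 < α → Tendsto (fun n : ℕ => ((n : ℝ) + 1) *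
    Real.exp (-(10 * Real.sqrt (Real.sqrt (⌊α * n⌋₊ : ℕ))))) atTop (𝓝 0)

/-- StatementD: a cluster of diameter `n` for `α ≤ 10⁻⁷ κ²` -/
def StatementD : Prop :=
  ∀ κ α : ℝ, 0 < κ → 0 < α → 10 ^ 7 * α ≤ κ ^ 2 →
    Tendsto (fun n : ℕ => prob ⌊α * n⌋₊ n (fun G => diam (SBP κ G) = n)) atTop (𝓝 1)

end Pool.Agent.H80.JD
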